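import Pool.Agent.H88.LS.Stm

/-!
# Project LS: basic facts, the key lemma K, and H
-/

set_option autoImplicit false

namespace Pool.Agent.H88.LS

open Finset Classical

theorem mem_pw {a b p : ℕ} : p ∈ pw a b ↔ a < p ∧ p ≤ b ∧ p.Prime := by
  simp [pw, and_assoc]

theorem card_pw (a b : ℕ) (h : a ≤ b) :
    (pw a b).card = Nat.primeCounting b - Nat.primeCounting a := by
  have key : Nat.primeCounting b = Nat.primeCounting a + (pw a b).card := by
    unfold Nat.primeCounting Nat.primeCounting'
    rw [Nat.count_eq_card_filter_range, Nat.count_eq_card_filter_range]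
    have hu : (range (b + 1)).filter Nat.Prime = (range (a + 1)).filter Nat.Prime ∪ pw a b := by
      ext t
      simp only [mem_union, mem_filter, mem_range, mem_pw]
      constructor
      · rintro ⟨h1, h2⟩
        by_cases h3 : t < a + 1
        · exact Or.inl ⟨h3, h2⟩
        · exact Or.inr ⟨by omega, by omega, h2⟩
      · rintro (⟨h1, h2⟩ | ⟨h1, h2, h3⟩)
        · exact ⟨by omega, h2⟩
        · exact ⟨by omega, h3⟩
    have hd : Disjoint ((range (a + 1)).filter Nat.Prime) (pw a b) := by
      rw [Finset.disjoint_left]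
      intro t ht ht2
      simp only [mem_filter, mem_range] at ht
      rw [mem_pw] at ht2
      omega
    have := Finset.card_union_of_disjoint hd
    rw [← hu] at this
    convert this
  omega

theorem s_base : (∀ n, s (n + 1) = s n + (pw (s n) (n + 1)).card) ∧ (∀ n, s n ≤ n) := by
  have h2 : ∀ n, s n ≤ n := by
    intro n
    induction n with
    | zero => simp [s]
    | succ n ih =>
      have h : s (n + 1) = s n + (Nat.primeCounting (n + 1) - Nat.primeCounting (s n)) := rfl
      rw [← card_pw _ _ (by omega)] at h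
      have : (pw (s n) (n + 1)).card ≤ (Ioc (s n) (n + 1)).card := Finset.card_filter_le _ _
      rw [Nat.card_Ioc] at this
      omega
  refine ⟨fun n => ?_, h2⟩
  have h : s (n + 1) = s n + (Nat.primeCounting (n + 1) - Nat.primeCounting (s n)) := rfl
  rw [← card_pw _ _ (by have := h2 n; omega)] at h
  exact h

theorem s_succ (n : ℕ) : s (n + 1) = s n + (pw (s n) (n + 1)).card := s_base.1 n

theorem s_le (n : ℕ) : s n ≤ n := s_base.2 n

theorem s_mono : Monotone s := by
  apply monotone_nat_of_le_succ
  intro n
  rw [s_succ]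
  omega

theorem s_unb (m : ℕ) : ∃ n, m ≤ s n := by
  by_contra hcon
  push Not at hcon
  obtain ⟨q, hq, hqp⟩ := Nat.exists_infinite_primes m
  have h1 : ∀ k, k ≤ s (q + k) := by
    intro k
    induction k with
    | zero => omega
    | succ k ih =>
      have h3 := s_succ (q + k)
      have h4 : 1 ≤ (pw (s (q + k)) (q + k + 1)).card := by
        apply Finset.card_pos.mpr
        refine ⟨q, ?_⟩
        rw [mem_pw]
        refine ⟨?_, by omega, hqp⟩
        have := hcon (q + k)
        omega
      have h5 : q + (k + 1) = q + k + 1 := by ring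
      rw [h5, h3]
      omega
  have := h1 m
  have := hcon (q + m)
  omega

theorem sbase : SBase := ⟨s_succ, s_le, s_mono, s_unb⟩

theorem ex_spec (p : ℕ) : p ≤ s (ex p) :=
  Nat.sInf_mem (s := {n | p ≤ s n}) (s_unb p)

theorem lt_of_lt_ex {p n : ℕ} (h : n < ex p) : s n < p := by
  by_contra hc
  have : ex p ≤ n := Nat.sInf_le (show n ∈ {n | p ≤ s n} from by simpa using hc)
  omega

theorem ex_le {p n : ℕ} (h : p ≤ s n) : ex p ≤ n :=
  Nat.sInf_le (show n ∈ {n | p ≤ s n} from h)

theorem le_ex (p : ℕ) : p ≤ ex p := (ex_spec p).trans (s_le _)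

theorem np_spec (p : ℕ) : (np p).Prime ∧ p < np p := by
  have h : {q | q.Prime ∧ p < q}.Nonempty := by
    obtain ⟨q, hq, hqp⟩ := Nat.exists_infinite_primes (p + 1)
    exact ⟨q, hqp, by omega⟩
  exact Nat.sInf_mem h

theorem np_le {p q : ℕ} (hq : q.Prime) (h : p < q) : np p ≤ q :=
  Nat.sInf_le (show q ∈ {q | q.Prime ∧ p < q} from ⟨hq, h⟩)

theorem np_inj {p q : ℕ} (hp : p.Prime) (hq : q.Prime) (h : np p = np q) : p = q := by
  rcases lt_trichotomy p q with h1 | h1 | h1
  · have := np_le hq h1
    have := (np_spec q).2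
    omega
  · exact h1
  · have := np_le hp h1
    have := (np_spec p).2
    omega

theorem gp_pos (p : ℕ) : 0 < gp p := by
  have := (np_spec p).2
  unfold gp
  omega

/-- the key lemma -/
theorem sk : SK := by
  intro p hp
  obtain ⟨hp'1, hp'2⟩ := np_spec p
  obtain ⟨hq1, hq2⟩ := np_spec (np p)
  set p' := np p with hp'
  set q := np p' with hq
  have h1 : p ≤ s (ex p) := ex_spec p
  have h2 : p' ≤ s (ex p') := ex_spec p'
  have h12 : ex p ≤ ex p' := ex_le (by omega)
  unfold gp R
  rw [← hp', ← hq]
  rcases Nat.eq_or_lt_of_le h12 with h | h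
  · right; left
    rw [h]
    omega
  · obtain ⟨M, hM⟩ : ∃ M, ex p' = M + 1 := ⟨ex p' - 1, by omega⟩
    have hMs : s M < p' := lt_of_lt_ex (by omega)
    have hM1 : ex p ≤ M := by omega
    have key : ∀ K, ex p ≤ K → K ≤ M →
        s (ex p) + (K - max (ex p) (p' - 1)) + (K - max (ex p) (q - 1)) ≤ s K := by
      intro K hK
      induction K, hK using Nat.le_induction with
      | base => intro _; omega
      | succ K hK ih =>
        intro hKM
        have ih' := ih (by omega)
        have hsK : s K < p' := lt_of_lt_ex (by omega)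
        have hs := s_succ K
        have hc : (if p' ≤ K + 1 then 1 else 0) + (if q ≤ K + 1 then 1 else 0)
            ≤ (pw (s K) (K + 1)).card := by
          have hsub : (({p', q} : Finset ℕ).filter fun t => t ≤ K + 1) ⊆ pw (s K) (K + 1) := by
            intro t ht
            simp only [mem_filter, mem_insert, mem_singleton] at ht
            rw [mem_pw]
            obtain ⟨ht1, ht2⟩ := ht
            rcases ht1 with rfl | rfl
            · exact ⟨hsK, ht2, hp'1⟩
            · exact ⟨by omega, ht2, hq1⟩
          refine le_trans ?_ (Finset.card_le_card hsub)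
          rw [Finset.card_filter, Finset.sum_insert (by simp; omega), Finset.sum_singleton]
        split_ifs at hc <;> omega
    have hfin := key M hM1 le_rfl
    omega

theorem sh : SH := by
  intro c hc ⟨n₀, hn₀⟩
  refine ⟨max n₀ 1, fun p hp hpp => ?_⟩
  have hp0 : n₀ ≤ p := (le_max_left _ _).trans hp
  have hp1 : 1 ≤ p := (le_max_right _ _).trans hp
  have h1 := hn₀ (ex p) (hp0.trans (le_ex p))
  have h2 : Real.log p ≤ Real.log (ex p) := by
    apply Real.log_le_log
    · exact_mod_cast hp1
    · exact_mod_cast le_ex p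
  have h3 : (p : ℝ) ≤ s (ex p) := by exact_mod_cast ex_spec p
  have h4 : c * Real.log p ≤ c * Real.log (ex p) := mul_le_mul_of_nonneg_left h2 hc.le
  have h5 : ((R p : ℤ) : ℝ) = (ex p : ℝ) - p + 1 := by
    unfold R
    push_cast
    ring
  rw [h5]
  linarith

end Pool.Agent.H88.LS
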