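import Pool.Agent.H88.LS.Main

/-!
# Project LS: a positive proportion of the primes has short residence time
-/

set_option autoImplicit false

namespace Pool.Agent.H88.LS

open Finset Classical

/-- numerical contradiction, robust form -/
theorem numeric2 (C δ κ η l x N b1 b2 b3 e : ℝ) (hC : 1 ≤ C) (hδ : δ = 1 / (20 * C))
    (hκ : κ = δ / (100 * C)) (hη : η = κ * δ / 100) (hx : 0 < x) (hl : 0 < l)
    (hlx : l ≤ η * x) (hx1 : 1 ≤ η * x)
    (hN : (1 - η) * x ≤ N * l)
    (he0 : 0 ≤ e) (he : e * l ≤ η * x)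
    (hb1 : κ * l * b1 ≤ (1 + η) * x - (1 - η) * l * N + (1 - η) * l * e)
    (hb2 : b2 * l ≤ C * (3 * (κ + η)) * x)
    (hb3 : b3 ≤ 2 * e + 1)
    (hmain : ((1 - 2 * η - 2 * κ) * l + δ * l) * (N - (b1 + b2 + b3) - 1) ≤
      (x + 2 * η * x + 1) + δ * l * (C * δ * x / l) + 2 * (δ * l) * (C * (2 * δ) * x / l)) :
    False := by
  have hC0 : 0 < C := by linarith
  have hδ0 : 0 < δ := by rw [hδ]; positivity
  have hCδ : C * δ = 1 / 20 := by rw [hδ]; field_simp
  have hδ20 : δ ≤ 1 / 20 := by nlinarith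
  have hκ0 : 0 < κ := by rw [hκ]; positivity
  have hCκ : C * κ = δ / 100 := by rw [hκ]; field_simp
  have hκδ : κ ≤ δ / 100 := by nlinarith
  have hη0 : 0 < η := by rw [hη]; positivity
  have hηκ : η ≤ κ / 2000 := by rw [hη]; nlinarith
  have hηδ : η ≤ δ / 200000 := by linarith
  have hη1 : η < 1 := by linarith
  have e1 : δ * l * (C * δ * x / l) = δ / 20 * x := by
    have : δ * l * (C * δ * x / l) = δ * (C * δ) * x := by field_simp
    rw [this, hCδ]; ring
  have e2 : 2 * (δ * l) * (C * (2 * δ) * x / l) = δ / 5 * x := by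
    have : 2 * (δ * l) * (C * (2 * δ) * x / l) = 4 * δ * (C * δ) * x := by field_simp; ring
    rw [this, hCδ]; ring
  rw [e1, e2] at hmain
  -- bound b1
  have h1 : κ * (l * b1) ≤ 4 * η * x := by
    have h1a : (1 - η) * ((1 - η) * x) ≤ (1 - η) * (N * l) :=
      mul_le_mul_of_nonneg_left hN (by linarith)
    have h1b : (1 - η) * (e * l) ≤ 1 * (e * l) :=
      mul_le_mul_of_nonneg_right (by linarith) (by positivity)
    nlinarith
  have h2 : l * b1 ≤ 4 * δ / 100 * x := by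
    have h3 : κ * (l * b1) ≤ κ * (4 * δ / 100 * x) := by
      rw [hη] at h1
      linarith
    exact le_of_mul_le_mul_left h3 hκ0
  have h4 : b2 * l ≤ 6 * δ / 100 * x := by
    have : C * (3 * (κ + η)) ≤ 6 * δ / 100 := by
      have : C * η ≤ C * κ := mul_le_mul_of_nonneg_left (by linarith) hC0.le
      nlinarith
    exact hb2.trans (mul_le_mul_of_nonneg_right this hx.le)
  have h4' : b3 * l ≤ 3 * η * x := by
    have := mul_le_mul_of_nonneg_right hb3 hl.le
    linarith
  have h5 : (1 - δ / 8) * x ≤ l * (N - (b1 + b2 + b3) - 1) := by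
    have h6 : l * (N - (b1 + b2 + b3) - 1) = N * l - l * b1 - b2 * l - b3 * l - l := by ring
    rw [h6]
    have h7 : (1 - δ / 8) * x ≤ (1 - η) * x - 4 * δ / 100 * x - 6 * δ / 100 * x - 3 * η * x
        - η * x := by
      have : (1 - δ / 8) ≤ (1 - η) - 4 * δ / 100 - 6 * δ / 100 - 3 * η - η := by linarith
      have := mul_le_mul_of_nonneg_right this hx.le
      linarith
    linarith
  have h8 : 1 + 96 / 100 * δ ≤ (1 - 2 * η - 2 * κ) + δ := by linarith
  have h9 : (1 + 96 / 100 * δ) * ((1 - δ / 8) * x) ≤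
      ((1 - 2 * η - 2 * κ) + δ) * (l * (N - (b1 + b2 + b3) - 1)) := by
    apply mul_le_mul h8 h5 _ (by linarith)
    apply mul_nonneg _ hx.le
    linarith
  have h10 : ((1 - 2 * η - 2 * κ) + δ) * (l * (N - (b1 + b2 + b3) - 1)) =
      ((1 - 2 * η - 2 * κ) * l + δ * l) * (N - (b1 + b2 + b3) - 1) := by ring
  rw [h10] at h9
  have h11 : (1 + 96 / 100 * δ) * ((1 - δ / 8) * x) ≤ (1 + 3 * η + δ / 4) * x := by
    nlinarith
  have h12 := le_of_mul_le_mul_right
    (show ((1 + 96 / 100 * δ) * (1 - δ / 8)) * x ≤ (1 + 3 * η + δ / 4) * x by linarith) hx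
  nlinarith

/-- many primes with short residence time -/
theorem many (hcnt : SCnt) (htwo : STwo) (hsum : SSum) (hsv : SSv) :
    ∃ η : ℝ, 0 < η ∧ η < 1 ∧ ∃ x₀ : ℕ, ∀ x : ℕ, x₀ ≤ x →
      η * x ≤ (((pw x (2 * x)).filter fun p => (R p : ℝ) < (1 - η) * Real.log x).card : ℝ) *
        Real.log x := by
  obtain ⟨C, hC, hV⟩ := hsv
  have hC0 : 0 < C := by linarith
  obtain ⟨δ, hδ⟩ : ∃ δ : ℝ, δ = 1 / (20 * C) := ⟨_, rfl⟩
  obtain ⟨κ, hκ⟩ : ∃ κ : ℝ, κ = δ / (100 * C) := ⟨_, rfl⟩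
  obtain ⟨η, hη⟩ : ∃ η : ℝ, η = κ * δ / 100 := ⟨_, rfl⟩
  have hδ0 : 0 < δ := by rw [hδ]; positivity
  have hCδ : C * δ = 1 / 20 := by rw [hδ]; field_simp
  have hδ20 : δ ≤ 1 / 20 := by nlinarith
  have hκ0 : 0 < κ := by rw [hκ]; positivity
  have hCκ : C * κ = δ / 100 := by rw [hκ]; field_simp
  have hκδ : κ ≤ δ / 100 := by nlinarith
  have hη0 : 0 < η := by rw [hη]; positivity
  have hηκ : η ≤ κ / 2000 := by rw [hη]; nlinarith
  have hηδ : η ≤ δ / 200000 := by linarith
  have hη1 : η < 1 := by linarith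
  refine ⟨η, hη0, hη1, ?_⟩
  obtain ⟨x2, hx2⟩ := hcnt η hη0
  obtain ⟨x3, hx3⟩ := htwo η hη0
  obtain ⟨x4, hx4⟩ := hsum η hη0
  obtain ⟨x5, hx5⟩ := hV (3 * (κ + η)) (by positivity) (by linarith)
  obtain ⟨x6, hx6⟩ := hV δ hδ0 (by linarith)
  obtain ⟨x7, hx7⟩ := hV (2 * δ) (by linarith) (by linarith)
  -- choose x
  have hev : ∀ᶠ x : ℕ in Filter.atTop, x2 ≤ x ∧ x3 ≤ x ∧ x4 ≤ x ∧ x5 ≤ x ∧ x6 ≤ x ∧
      x7 ≤ x ∧ 1 / κ ≤ Real.log x ∧ 1 ≤ η * x ∧ Real.log x ≤ η * x := by
    have hcast : Filter.Tendsto (fun n : ℕ => (n : ℝ)) Filter.atTop Filter.atTop :=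
      tendsto_natCast_atTop_atTop
    have h1 : ∀ᶠ x : ℕ in Filter.atTop, 1 / κ ≤ Real.log x :=
      (Real.tendsto_log_atTop.comp hcast).eventually_ge_atTop _
    have h2 : ∀ᶠ x : ℕ in Filter.atTop, 1 ≤ η * x := by
      have : Filter.Tendsto (fun n : ℕ => η * (n : ℝ)) Filter.atTop Filter.atTop :=
        Filter.Tendsto.const_mul_atTop hη0 hcast
      exact this.eventually_ge_atTop _
    have h3 : ∀ᶠ x : ℕ in Filter.atTop, Real.log x ≤ η * x := by
      have h4 := Real.isLittleO_log_id_atTop.bound hη0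
      have h5 := hcast.eventually h4
      filter_upwards [h5, h2] with x hx hx'
      simp only [id, Real.norm_eq_abs] at hx
      have h6 : |(x : ℝ)| = x := abs_of_nonneg (Nat.cast_nonneg _)
      rw [h6] at hx
      exact (le_abs_self _).trans hx
    filter_upwards [Filter.eventually_ge_atTop x2,
      Filter.eventually_ge_atTop x3, Filter.eventually_ge_atTop x4, Filter.eventually_ge_atTop x5,
      Filter.eventually_ge_atTop x6, Filter.eventually_ge_atTop x7, h1, h2, h3]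
      with x a2 a3 a4 a5 a6 a7 a8 a9 a10
    exact ⟨a2, a3, a4, a5, a6, a7, a8, a9, a10⟩
  obtain ⟨x₀, hx₀⟩ := Filter.eventually_atTop.mp hev
  refine ⟨x₀, fun x hxx => ?_⟩
  obtain ⟨a2, a3, a4, a5, a6, a7, a8, a9, a10⟩ := hx₀ x hxx
  obtain ⟨l, hl⟩ : ∃ l : ℝ, l = Real.log x := ⟨_, rfl⟩
  have hxr : (0 : ℝ) < x := by
    by_contra hc
    push Not at hc
    nlinarith
  have hx0 : 0 < x := by exact_mod_cast hxr
  have hl0 : 0 < l := by
    rw [hl]
    have : 0 < 1 / κ := by positivity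
    linarith
  have hκl : 1 ≤ κ * l := by
    rw [hl]
    rw [div_le_iff₀ hκ0] at a8
    linarith
  rw [← hl] at a10
  rw [← hl]
  by_contra hcon
  push Not at hcon
  set A := pw x (2 * x) with hA
  have hAm : ∀ p ∈ A, x < p ∧ p ≤ 2 * x ∧ p.Prime := fun p hp => mem_pw.mp hp
  obtain ⟨E, hE⟩ : ∃ E, E = A.filter fun p => (R p : ℝ) < (1 - η) * l := ⟨_, rfl⟩
  rw [← hE] at hcon
  have hEA : E ⊆ A := by rw [hE]; exact Finset.filter_subset _ _
  have hEn : ∀ p ∈ A, p ∉ E → (1 - η) * l ≤ (R p : ℝ) := by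
    intro p hp hpE
    by_contra hc
    push Not at hc
    exact hpE (by rw [hE, mem_filter]; exact ⟨hp, hc⟩)
  obtain ⟨B1, hB1⟩ : ∃ B1, B1 = A.filter fun p => (1 + κ) * l < (R p : ℝ) := ⟨_, rfl⟩
  obtain ⟨B2, hB2⟩ : ∃ B2, B2 = A.filter fun p => (gp p : ℝ) ≤ 3 * (κ + η) * l := ⟨_, rfl⟩
  obtain ⟨B3, hB3⟩ : ∃ B3, B3 = A.filter fun p => p ∈ E ∨ np p ∈ E ∨ 2 * x < np p := ⟨_, rfl⟩
  have hb3 : (B3.card : ℝ) ≤ 2 * E.card + 1 := by
    have hsub : B3 ⊆ E ∪ ((A.filter fun p => np p ∈ E) ∪ (A.filter fun p => 2 * x < np p)) := by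
      intro p hp
      rw [hB3, mem_filter] at hp
      simp only [mem_union, mem_filter]
      rcases hp.2 with h | h | h
      · exact Or.inl h
      · exact Or.inr (Or.inl ⟨hp.1, h⟩)
      · exact Or.inr (Or.inr ⟨hp.1, h⟩)
    have h1 : (A.filter fun p => np p ∈ E).card ≤ E.card := by
      apply Finset.card_le_card_of_injOn np
      · intro p hp
        exact (mem_filter.mp hp).2
      · intro p hp q hq hpq
        exact np_inj (hAm p (mem_filter.mp hp).1).2.2 (hAm q (mem_filter.mp hq).1).2.2 hpq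
    have h2 : (A.filter fun p => 2 * x < np p).card ≤ 1 := by
      rw [Finset.card_le_one]
      intro p hp q hq
      rw [mem_filter] at hp hq
      obtain ⟨hp1, hp2, hp3⟩ := hAm p hp.1
      obtain ⟨hq1, hq2, hq3⟩ := hAm q hq.1
      rcases lt_trichotomy p q with h | h | h
      · have := np_le hq3 h
        omega
      · exact h
      · have := np_le hp3 h
        omega
    have h3 := (Finset.card_le_card hsub).trans (Finset.card_union_le _ _)
    have h4 := Finset.card_union_le (A.filter fun p => np p ∈ E) (A.filter fun p => 2 * x < np p)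
    have h5 : B3.card ≤ 2 * E.card + 1 := by omega
    exact_mod_cast h5
  have hN : (1 - η) * x ≤ (A.card : ℝ) * l := by
    have := hx2 x a2
    rw [← hl, div_le_iff₀ hl0] at this
    exact this
  have hsumR := hx4 x a4
  have hRpos : ∀ p, (1 : ℝ) ≤ (R p : ℝ) := by
    intro p
    have := le_ex p
    have h : (1 : ℤ) ≤ R p := by unfold R; omega
    exact_mod_cast h
  have hb1 : κ * l * (B1.card : ℝ) ≤ (1 + η) * x - (1 - η) * l * A.card +
      (1 - η) * l * E.card := by
    have h1 : (∑ p ∈ A, (((1 - η) * l + if p ∈ B1 then κ * l else 0) -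
        if p ∈ E then (1 - η) * l else 0)) ≤ ∑ p ∈ A, (R p : ℝ) := by
      apply Finset.sum_le_sum
      intro p hp
      obtain ⟨hp1, hp2, hp3⟩ := hAm p hp
      have hηl : 0 ≤ η * l := by positivity
      have hκl' : 0 ≤ κ * l := by positivity
      by_cases hpB : p ∈ B1
      · rw [if_pos hpB]
        have hpE : p ∉ E := by
          intro hpE
          rw [hB1, mem_filter] at hpB
          rw [hE, mem_filter] at hpE
          have := hpB.2
          have := hpE.2
          linarith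
        rw [if_neg hpE]
        rw [hB1, mem_filter] at hpB
        have := hpB.2
        linarith
      · rw [if_neg hpB]
        by_cases hpE : p ∈ E
        · rw [if_pos hpE]
          have := hRpos p
          linarith
        · rw [if_neg hpE]
          have := hEn p hp hpE
          linarith
    rw [Finset.sum_sub_distrib, Finset.sum_add_distrib, Finset.sum_const, nsmul_eq_mul,
      ← Finset.sum_filter, Finset.sum_const, nsmul_eq_mul, ← Finset.sum_filter,
      Finset.sum_const, nsmul_eq_mul] at h1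
    have h2 : (A.filter fun p => p ∈ B1) = B1 := by
      ext p
      rw [mem_filter]
      constructor
      · exact fun h => h.2
      · intro h
        refine ⟨?_, h⟩
        rw [hB1, mem_filter] at h
        exact h.1
    have h3 : (A.filter fun p => p ∈ E) = E := by
      ext p
      rw [mem_filter]
      exact ⟨fun h => h.2, fun h => ⟨hEA h, h⟩⟩
    rw [h2, h3] at h1
    linarith
  have hb2 : (B2.card : ℝ) * l ≤ C * (3 * (κ + η)) * x := by
    have h1 := hx5 x a5 0 le_rfl (by rw [← hl]; linarith)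
    rw [← hl, le_div_iff₀ hl0] at h1
    refine le_trans (mul_le_mul_of_nonneg_right ?_ hl0.le) h1
    have h2 : B2 ⊆ A.filter fun p => (0 : ℝ) ≤ ((np p : ℝ) - p) ∧
        ((np p : ℝ) - p) ≤ 0 + 3 * (κ + η) * l := by
      intro p hp
      rw [hB2, mem_filter] at hp
      rw [mem_filter]
      have h3 : ((gp p : ℤ) : ℝ) = (np p : ℝ) - p := by unfold gp; push_cast; ring
      have h4 : (0 : ℝ) < (gp p : ℝ) := by exact_mod_cast gp_pos p
      rw [← h3]
      exact ⟨hp.1, h4.le, by linarith [hp.2]⟩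
    exact_mod_cast Finset.card_le_card (h2.trans (window_sub _ _ A np np_spec))
  -- the key lemma for good primes
  obtain ⟨T, hT⟩ : ∃ T : ℝ, T = (1 - 2 * η - 2 * κ) * l := ⟨_, rfl⟩
  have hT0 : 0 ≤ T := by
    rw [hT]
    apply mul_nonneg _ hl0.le
    linarith
  have hT1 : T ≤ l := by
    rw [hT]
    nlinarith
  have hKey : ∀ p ∈ A, p ∉ B1 ∪ B2 ∪ B3 → T ≤ (gp (np p) : ℝ) ∨
      2 * T ≤ (gp p : ℝ) + gp (np p) := by
    intro p hp hpB
    rw [mem_union, mem_union, not_or, not_or] at hpB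
    obtain ⟨hp1, hp2, hp3⟩ := hAm p hp
    have hB3' : p ∉ E ∧ np p ∉ E ∧ ¬ 2 * x < np p := by
      have h := hpB.2
      rw [hB3, mem_filter] at h
      push Not at h
      have h' := h hp
      exact ⟨h'.1, h'.2.1, not_lt.mpr h'.2.2⟩
    have hR1 : (R p : ℝ) ≤ (1 + κ) * l := by
      by_contra hc
      push Not at hc
      exact hpB.1.1 (by rw [hB1, mem_filter]; exact ⟨hp, hc⟩)
    have hg1 : 3 * (κ + η) * l < (gp p : ℝ) := by
      by_contra hc
      push Not at hc
      exact hpB.1.2 (by rw [hB2, mem_filter]; exact ⟨hp, hc⟩)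
    have hnpA : np p ∈ A := by
      rw [hA, mem_pw]
      exact ⟨by have := (np_spec p).2; omega, not_lt.mp hB3'.2.2, (np_spec p).1⟩
    have hR2 : (1 - η) * l ≤ (R (np p) : ℝ) := hEn _ hnpA hB3'.2.1
    have hηl : 0 < η * l := by positivity
    rcases sk p hp3 with h | h | h
    · left
      have h' : 2 * (R (np p) : ℝ) - R p - 1 ≤ gp (np p) := by exact_mod_cast h
      rw [hT]
      nlinarith
    · exfalso
      have h' : (gp p : ℝ) ≤ 2 * ((R p : ℝ) - R (np p)) + 1 := by exact_mod_cast h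
      nlinarith
    · right
      have h' : 2 * (R (np p) : ℝ) - 1 ≤ (gp p : ℝ) + gp (np p) := by exact_mod_cast h
      rw [hT]
      nlinarith
  -- narrow windows
  have hw1 : ((A.filter fun p => T ≤ (gp p : ℝ) ∧ (gp p : ℝ) ≤ T + δ * l).card : ℝ) ≤
      C * δ * x / l := by
    have h1 := hx6 x a6 T hT0 (by rw [← hl]; linarith)
    rw [← hl] at h1
    refine le_trans ?_ h1
    have h2 : (A.filter fun p => T ≤ (gp p : ℝ) ∧ (gp p : ℝ) ≤ T + δ * l) =
        A.filter fun p => T ≤ ((np p : ℝ) - p) ∧ ((np p : ℝ) - p) ≤ T + δ * l := by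
      apply Finset.filter_congr
      intro p _
      have h3 : ((gp p : ℤ) : ℝ) = (np p : ℝ) - p := by unfold gp; push_cast; ring
      rw [h3]
    rw [h2]
    exact_mod_cast Finset.card_le_card (window_sub _ _ A np np_spec)
  have hw2 : ((A.filter fun p => 2 * T ≤ (gp p : ℝ) + gp (np p) ∧
      (gp p : ℝ) + gp (np p) ≤ 2 * T + 2 * (δ * l)).card : ℝ) ≤ C * (2 * δ) * x / l := by
    have h1 := hx7 x a7 (2 * T) (by linarith) (by rw [← hl]; linarith)
    rw [← hl] at h1
    refine le_trans ?_ h1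
    have h2 : (A.filter fun p => 2 * T ≤ (gp p : ℝ) + gp (np p) ∧
        (gp p : ℝ) + gp (np p) ≤ 2 * T + 2 * (δ * l)) =
        A.filter fun p => 2 * T ≤ ((np (np p) : ℝ) - p) ∧
          ((np (np p) : ℝ) - p) ≤ 2 * T + 2 * δ * l := by
      apply Finset.filter_congr
      intro p _
      have h3 : ((gp p : ℤ) : ℝ) + gp (np p) = (np (np p) : ℝ) - p := by
        unfold gp; push_cast; ring
      rw [h3, mul_assoc]
    rw [h2]
    exact_mod_cast Finset.card_le_card (window_sub _ _ A (fun p => np (np p))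
      (fun p => ⟨(np_spec (np p)).1, (np_spec p).2.trans (np_spec (np p)).2⟩))
  -- the sum of the gaps
  have hgap : ((∑ p ∈ A, gp p : ℤ) : ℝ) ≤ x + 2 * η * x + 1 := by
    obtain ⟨Y, hY⟩ : ∃ Y : ℕ, Y = ⌈(2 * (x : ℝ) + 2 * η * x)⌉₊ := ⟨_, rfl⟩
    have hY1 : 2 * (x : ℝ) + 2 * η * x ≤ Y := by rw [hY]; exact Nat.le_ceil _
    have hY2 : (Y : ℝ) < 2 * (x : ℝ) + 2 * η * x + 1 := by
      rw [hY]
      exact Nat.ceil_lt_add_one (by positivity)
    have h1 := hx3 (2 * x) Y (by omega) (by push_cast; linarith)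
    have h2 : (pw (2 * x) Y).Nonempty := Finset.card_pos.mp (by omega)
    obtain ⟨r, hr⟩ := h2
    rw [mem_pw] at hr
    have h3 := sum_gp x Y (by omega) A (fun p hp => by
      obtain ⟨hp1, hp2, hp3⟩ := hAm p hp
      exact ⟨hp3, hp1.le, (np_le hr.2.2 (by omega)).trans hr.2.1⟩)
    have h4 : ((∑ p ∈ A, gp p : ℤ) : ℝ) ≤ (Y : ℝ) - x := by exact_mod_cast h3
    linarith
  have hm := matching x (B1 ∪ B2 ∪ B3) T (δ * l) (C * δ * x / l) (C * (2 * δ) * x / l)
    (by positivity) hT0 hKey hw1 hw2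
  have hBc : ((B1 ∪ B2 ∪ B3).card : ℝ) ≤ B1.card + B2.card + B3.card := by
    have h1 := Finset.card_union_le (B1 ∪ B2) B3
    have h2 := Finset.card_union_le B1 B2
    have h3 : (B1 ∪ B2 ∪ B3).card ≤ B1.card + B2.card + B3.card := by omega
    exact_mod_cast h3
  have hm2 : (T + δ * l) * ((A.card : ℝ) - (B1.card + B2.card + B3.card) - 1) ≤
      (T + δ * l) * ((A.card : ℝ) - (B1 ∪ B2 ∪ B3).card - 1) := by
    apply mul_le_mul_of_nonneg_left
    · linarith
    · have : 0 ≤ δ * l := by positivity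
      linarith
  rw [hT] at hm hm2
  exact numeric2 C δ κ η l x A.card B1.card B2.card B3.card E.card hC hδ hκ hη hxr hl0 a10 a9 hN
    (by positivity) hcon.le hb1 hb2 hb3 (by linarith)

end Pool.Agent.H88.LS
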