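import Pool.Agent.H88.LS.Base

/-!
# Project LS: the matching argument (combinatorial part)
-/

set_option autoImplicit false

namespace Pool.Agent.H88.LS

open Finset Classical

/-- the sum of gaps over primes of (x, 2x] is at most Y - x if all next primes are <= Y -/
theorem sum_gp (x Y : ℕ) (hxY : x ≤ Y) (A : Finset ℕ) (hA : ∀ p ∈ A, p.Prime ∧ x ≤ p ∧ np p ≤ Y) :
    (∑ p ∈ A, gp p) ≤ (Y : ℤ) - x := by
  have hdisj : (A : Set ℕ).PairwiseDisjoint (fun p => Ioc p (np p)) := by
    intro p hp q hq hpq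
    have hpp := (hA p hp).1
    have hqp := (hA q hq).1
    simp only [Function.onFun]
    rw [Finset.disjoint_left]
    intro t ht ht2
    rw [mem_Ioc] at ht ht2
    rcases lt_trichotomy p q with h | h | h
    · have := np_le hqp h
      omega
    · exact hpq h
    · have := np_le hpp h
      omega
  have hsub : A.biUnion (fun p => Ioc p (np p)) ⊆ Ioc x Y := by
    intro t ht
    rw [mem_biUnion] at ht
    obtain ⟨p, hp, ht⟩ := ht
    rw [mem_Ioc] at ht ⊢
    obtain ⟨_, h1, h2⟩ := hA p hp
    omega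
  have hc := Finset.card_le_card hsub
  rw [Finset.card_biUnion hdisj, Nat.card_Ioc] at hc
  have he : ∀ p ∈ A, gp p = (((Ioc p (np p)).card : ℕ) : ℤ) := by
    intro p _
    rw [Nat.card_Ioc]
    have := (np_spec p).2
    unfold gp
    omega
  rw [Finset.sum_congr rfl he, ← Nat.cast_sum]
  have : ((∑ p ∈ A, (Ioc p (np p)).card : ℕ) : ℤ) ≤ ((Y - x : ℕ) : ℤ) := by exact_mod_cast hc
  omega

/-- predecessor of a prime in the window -/
theorem exists_pred {x q : ℕ} (hq : q ∈ pw x (2 * x)) (hne : q ≠ np x) :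
    ∃ p ∈ pw x (2 * x), np p = q := by
  rw [mem_pw] at hq
  obtain ⟨h1, h2, h3⟩ := hq
  have h4 : np x ≤ q := np_le h3 h1
  have h5 : np x < q := lt_of_le_of_ne h4 (Ne.symm hne)
  have hne' : (pw x (q - 1)).Nonempty := by
    refine ⟨np x, ?_⟩
    rw [mem_pw]
    exact ⟨(np_spec x).2, by omega, (np_spec x).1⟩
  set p := (pw x (q - 1)).max' hne' with hp
  have hpm : p ∈ pw x (q - 1) := Finset.max'_mem _ _
  rw [mem_pw] at hpm
  obtain ⟨hp1, hp2, hp3⟩ := hpm
  refine ⟨p, ?_, ?_⟩
  · rw [mem_pw]
    exact ⟨hp1, by omega, hp3⟩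
  · apply le_antisymm
    · exact np_le h3 (by omega)
    · by_contra hc
      push Not at hc
      have hm : np p ∈ pw x (q - 1) := by
        rw [mem_pw]
        have := (np_spec p).2
        exact ⟨by omega, by omega, (np_spec p).1⟩
      have := Finset.le_max' _ _ hm
      have := (np_spec p).2
      omega

/-- the matching argument -/
theorem matching (x : ℕ) (B : Finset ℕ) (T D e1 e2 : ℝ)
    (hD : 0 ≤ D) (hT : 0 ≤ T)
    (hK : ∀ p ∈ pw x (2 * x), p ∉ B → T ≤ (gp (np p) : ℝ) ∨ 2 * T ≤ (gp p : ℝ) + gp (np p))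
    (h1 : (((pw x (2 * x)).filter fun p => T ≤ (gp p : ℝ) ∧ (gp p : ℝ) ≤ T + D).card : ℝ) ≤ e1)
    (h2 : (((pw x (2 * x)).filter fun p => 2 * T ≤ (gp p : ℝ) + gp (np p) ∧
      (gp p : ℝ) + gp (np p) ≤ 2 * T + 2 * D).card : ℝ) ≤ e2) :
    (T + D) * ((pw x (2 * x)).card - B.card - 1) ≤
      ((∑ p ∈ pw x (2 * x), gp p : ℤ) : ℝ) + D * e1 + 2 * D * e2 := by
  set A := pw x (2 * x) with hA
  set S := A.filter fun q => (gp q : ℝ) < T with hS
  set P := A.filter fun p => p ∉ B ∧ np p ∈ S with hP
  set U := A.filter fun q => q ∉ S ∧ q ∉ P with hU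
  have hAp : ∀ p ∈ A, p.Prime := fun p hp => (mem_pw.mp hp).2.2
  have hgp0 : ∀ p, (0 : ℝ) < (gp p : ℝ) := fun p => by exact_mod_cast gp_pos p
  -- on P the sum of two gaps is at least 2 T
  have hP2 : ∀ p ∈ P, 2 * T ≤ (gp p : ℝ) + gp (np p) := by
    intro p hp
    rw [hP, mem_filter] at hp
    obtain ⟨hp1, hp2, hp3⟩ := hp
    rw [hS, mem_filter] at hp3
    rcases hK p hp1 hp2 with h | h
    · exact absurd hp3.2 (not_lt.mpr h)
    · exact h
  have hPS : Disjoint P S := by
    rw [Finset.disjoint_left]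
    intro p hp hpS
    have := hP2 p hp
    rw [hP, mem_filter] at hp
    have h3 := hp.2.2
    rw [hS, mem_filter] at h3 hpS
    have := h3.2
    have := hpS.2
    linarith
  have hPA : P ⊆ A := Finset.filter_subset _ _
  have hSA : S ⊆ A := Finset.filter_subset _ _
  have hUnion : A = U ∪ (P ∪ S) := by
    ext p
    simp only [mem_union]
    constructor
    · intro hp
      by_cases hpS : p ∈ S
      · exact Or.inr (Or.inr hpS)
      · by_cases hpP : p ∈ P
        · exact Or.inr (Or.inl hpP)
        · left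
          rw [hU, mem_filter]
          exact ⟨hp, hpS, hpP⟩
    · rintro (h | h | h)
      · exact (Finset.filter_subset _ _) h
      · exact hPA h
      · exact hSA h
  have hUPS : Disjoint U (P ∪ S) := by
    rw [Finset.disjoint_left]
    intro p hp hp2
    rw [hU, mem_filter] at hp
    rw [mem_union] at hp2
    rcases hp2 with h | h
    · exact hp.2.2 h
    · exact hp.2.1 h
  have hcard : A.card = U.card + (P.card + S.card) := by
    rw [← Finset.card_union_of_disjoint hPS, ← Finset.card_union_of_disjoint hUPS, ← hUnion]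
  -- |S| ≤ |P| + |B| + 1
  have hScard : S.card ≤ 1 + (P.card + B.card) := by
    have hsub : S ⊆ {np x} ∪ (P.image np ∪ B.image np) := by
      intro q hq
      have hqA := hSA hq
      simp only [mem_union, mem_singleton, mem_image]
      by_cases hne : q = np x
      · exact Or.inl hne
      · right
        obtain ⟨p, hp, hpq⟩ := exists_pred hqA hne
        by_cases hpB : p ∈ B
        · exact Or.inr ⟨p, hpB, hpq⟩
        · left
          refine ⟨p, ?_, hpq⟩
          rw [hP, mem_filter]
          exact ⟨hp, hpB, by rw [hpq]; exact hq⟩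
    refine (Finset.card_le_card hsub).trans ((Finset.card_union_le _ _).trans ?_)
    rw [Finset.card_singleton]
    have := Finset.card_union_le (P.image np) (B.image np)
    have := Finset.card_image_le (s := P) (f := np)
    have := Finset.card_image_le (s := B) (f := np)
    omega
  -- sums
  have hsumS : (∑ p ∈ P, (gp (np p) : ℝ)) ≤ ∑ q ∈ S, (gp q : ℝ) := by
    have hinj : Set.InjOn np (P : Set ℕ) := by
      intro p hp q hq hpq
      exact np_inj (hAp p (hPA hp)) (hAp q (hPA hq)) hpq
    rw [← Finset.sum_image (f := fun q => (gp q : ℝ)) hinj]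
    apply Finset.sum_le_sum_of_subset_of_nonneg
    · intro q hq
      rw [mem_image] at hq
      obtain ⟨p, hp, rfl⟩ := hq
      rw [hP, mem_filter] at hp
      exact hp.2.2
    · intro q _ _
      exact (hgp0 q).le
  have hsum : ((∑ p ∈ A, gp p : ℤ) : ℝ) =
      (∑ p ∈ U, (gp p : ℝ)) + ((∑ p ∈ P, (gp p : ℝ)) + ∑ p ∈ S, (gp p : ℝ)) := by
    rw [← Finset.sum_union hPS, ← Finset.sum_union hUPS, ← hUnion]
    push_cast
    rfl
  set E1 := A.filter fun p => T ≤ (gp p : ℝ) ∧ (gp p : ℝ) ≤ T + D with hE1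
  set E2 := A.filter fun p => 2 * T ≤ (gp p : ℝ) + gp (np p) ∧
      (gp p : ℝ) + gp (np p) ≤ 2 * T + 2 * D with hE2
  have hsumU : (T + D) * U.card - D * E1.card ≤ ∑ p ∈ U, (gp p : ℝ) := by
    have h3 : ∀ p ∈ U, (T + D) - D * (if p ∈ E1 then 1 else 0) ≤ (gp p : ℝ) := by
      intro p hp
      rw [hU, mem_filter] at hp
      obtain ⟨hp1, hp2, _⟩ := hp
      have hpT : T ≤ (gp p : ℝ) := by
        by_contra hc
        push Not at hc
        exact hp2 (by rw [hS, mem_filter]; exact ⟨hp1, hc⟩)
      by_cases hpE : p ∈ E1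
      · rw [if_pos hpE]
        linarith
      · rw [if_neg hpE]
        have : ¬ ((gp p : ℝ) ≤ T + D) := by
          intro hc
          exact hpE (by rw [hE1, mem_filter]; exact ⟨hp1, hpT, hc⟩)
        push Not at this
        linarith
    have h4 := Finset.sum_le_sum h3
    rw [Finset.sum_sub_distrib, Finset.sum_const, nsmul_eq_mul, ← Finset.mul_sum,
      ← Finset.sum_filter, Finset.sum_const, nsmul_eq_mul, mul_one] at h4
    have h5 : ((U.filter fun p => p ∈ E1).card : ℝ) ≤ E1.card := by
      have : (U.filter fun p => p ∈ E1) ⊆ E1 := by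
        intro p hp
        exact (mem_filter.mp hp).2
      exact_mod_cast Finset.card_le_card this
    have h6 := mul_le_mul_of_nonneg_left h5 hD
    linarith
  have hsumP : 2 * (T + D) * P.card - 2 * D * E2.card ≤
      (∑ p ∈ P, (gp p : ℝ)) + ∑ p ∈ P, (gp (np p) : ℝ) := by
    rw [← Finset.sum_add_distrib]
    have h3 : ∀ p ∈ P, 2 * (T + D) - 2 * D * (if p ∈ E2 then 1 else 0) ≤
        (gp p : ℝ) + gp (np p) := by
      intro p hp
      have hpT := hP2 p hp
      have hp1 := hPA hp
      by_cases hpE : p ∈ E2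
      · rw [if_pos hpE]
        linarith
      · rw [if_neg hpE]
        have : ¬ ((gp p : ℝ) + gp (np p) ≤ 2 * T + 2 * D) := by
          intro hc
          exact hpE (by rw [hE2, mem_filter]; exact ⟨hp1, hpT, hc⟩)
        push Not at this
        linarith
    have h4 := Finset.sum_le_sum h3
    rw [Finset.sum_sub_distrib, Finset.sum_const, nsmul_eq_mul, ← Finset.mul_sum,
      ← Finset.sum_filter, Finset.sum_const, nsmul_eq_mul, mul_one] at h4
    have h5 : ((P.filter fun p => p ∈ E2).card : ℝ) ≤ E2.card := by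
      have : (P.filter fun p => p ∈ E2) ⊆ E2 := by
        intro p hp
        exact (mem_filter.mp hp).2
      exact_mod_cast Finset.card_le_card this
    have h6 := mul_le_mul_of_nonneg_left h5 (by positivity : (0 : ℝ) ≤ 2 * D)
    linarith
  have hcr : (A.card : ℝ) = U.card + (P.card + S.card) := by exact_mod_cast hcard
  have hSr : (S.card : ℝ) ≤ 1 + (P.card + B.card) := by exact_mod_cast hScard
  have h7 : (T + D) * (A.card - B.card - 1) ≤ (T + D) * (U.card + 2 * P.card) := by
    apply mul_le_mul_of_nonneg_left _ (by linarith)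
    linarith
  have h8 : D * E1.card ≤ D * e1 := mul_le_mul_of_nonneg_left h1 hD
  have h9 : 2 * D * E2.card ≤ 2 * D * e2 := mul_le_mul_of_nonneg_left h2 (by positivity)
  rw [hsum]
  nlinarith [h7, h8, h9, hsumU, hsumP, hsumS]

end Pool.Agent.H88.LS
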