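import Pool.Agent.H88.LS.Many

/-!
# Project LS: a positive proportion of the integers n has n - s n ≤ c log n with c < 1
-/

set_option autoImplicit false

namespace Pool.Agent.H88.LS

open Finset Classical

/-- separated points in an interval -/
theorem sep_count (F : Finset ℕ) (a L w : ℝ) (hw : 0 < w) (hL : 0 ≤ L)
    (h1 : ∀ p ∈ F, a ≤ (p : ℝ) ∧ (p : ℝ) ≤ a + L)
    (h2 : ∀ p ∈ F, ∀ q ∈ F, p < q → w ≤ (q : ℝ) - p) : (F.card : ℝ) ≤ L / w + 1 := by
  have hinj : Set.InjOn (fun p : ℕ => ⌊((p : ℝ) - a) / w⌋₊) (F : Set ℕ) := by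
    have key : ∀ p ∈ F, ∀ q ∈ F, p < q → ⌊((p : ℝ) - a) / w⌋₊ < ⌊((q : ℝ) - a) / w⌋₊ := by
      intro p hp q hq hpq
      have h3 := h2 p hp q hq hpq
      have h4 : 0 ≤ ((p : ℝ) - a) / w := div_nonneg (by linarith [(h1 p hp).1]) hw.le
      have h5 : ((p : ℝ) - a) / w + 1 ≤ ((q : ℝ) - a) / w := by
        rw [div_add_one hw.ne']
        apply div_le_div_of_nonneg_right _ hw.le
        linarith
      have h6 : ⌊((p : ℝ) - a) / w + 1⌋₊ ≤ ⌊((q : ℝ) - a) / w⌋₊ := Nat.floor_le_floor h5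
      rw [Nat.floor_add_one h4] at h6
      omega
    intro p hp q hq hpq
    rcases lt_trichotomy p q with h | h | h
    · exact absurd hpq (key p hp q hq h).ne
    · exact h
    · exact absurd hpq (key q hq p hp h).ne'
  have hmaps : ∀ p ∈ F, ⌊((p : ℝ) - a) / w⌋₊ ∈ range (⌊L / w⌋₊ + 1) := by
    intro p hp
    rw [mem_range, Nat.lt_succ_iff]
    apply Nat.floor_le_floor
    apply div_le_div_of_nonneg_right _ hw.le
    linarith [(h1 p hp).2]
  have hc := Finset.card_le_card_of_injOn _ hmaps hinj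
  rw [Finset.card_range] at hc
  have h7 : (F.card : ℝ) ≤ (⌊L / w⌋₊ : ℝ) + 1 := by exact_mod_cast hc
  have h8 : (⌊L / w⌋₊ : ℝ) ≤ L / w := Nat.floor_le (by positivity)
  linarith

theorem prop_of (hcnt : SCnt) (htwo : STwo) (hsum : SSum) (hsv : SSv) :
    ∃ c : ℝ, c < 1 ∧ ∃ α : ℝ, 0 < α ∧ ∃ x₀ : ℕ, ∀ x : ℕ, x₀ ≤ x →
      α * x ≤ (((Ioc x (3 * x)).filter fun n : ℕ => (n : ℝ) - s n ≤ c * Real.log n).card : ℝ) := by
  obtain ⟨η, hη0, hη1, x1, hx1⟩ := many hcnt htwo hsum hsv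
  obtain ⟨C, hC, hV⟩ := hsv
  have hC0 : 0 < C := by linarith
  obtain ⟨w, hw⟩ : ∃ w : ℝ, w = η / (2 * C) := ⟨_, rfl⟩
  have hw0 : 0 < w := by rw [hw]; positivity
  have hCw : C * w = η / 2 := by rw [hw]; field_simp
  have hw1 : w ≤ 1 := by nlinarith
  obtain ⟨x2, hx2⟩ := hV w hw0 hw1
  refine ⟨1 - η / 2, by linarith, η / 2 * (η / 2) / (1 / w + 1), by positivity, ?_⟩
  have hev : ∀ᶠ x : ℕ in Filter.atTop, x1 ≤ x ∧ x2 ≤ x ∧ 1 ≤ Real.log x ∧ Real.log x ≤ x := by
    have hcast : Filter.Tendsto (fun n : ℕ => (n : ℝ)) Filter.atTop Filter.atTop :=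
      tendsto_natCast_atTop_atTop
    have h1 : ∀ᶠ x : ℕ in Filter.atTop, 1 ≤ Real.log x :=
      (Real.tendsto_log_atTop.comp hcast).eventually_ge_atTop _
    have h3 : ∀ᶠ x : ℕ in Filter.atTop, Real.log x ≤ x := by
      filter_upwards with x
      exact Real.log_le_self (Nat.cast_nonneg _)
    filter_upwards [Filter.eventually_ge_atTop x1, Filter.eventually_ge_atTop x2, h1, h3]
      with x a1 a2 a3 a4
    exact ⟨a1, a2, a3, a4⟩
  obtain ⟨x₀, hx₀⟩ := Filter.eventually_atTop.mp hev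
  refine ⟨x₀, fun x hxx => ?_⟩
  obtain ⟨a1, a2, a3, a4⟩ := hx₀ x hxx
  obtain ⟨l, hl⟩ : ∃ l : ℝ, l = Real.log x := ⟨_, rfl⟩
  have hE := hx1 x a1
  rw [← hl] at hE a3 a4
  have hl0 : 0 < l := by linarith
  have hxr : (0 : ℝ) < x := by linarith
  have hx0 : 0 < x := by exact_mod_cast hxr
  set A := pw x (2 * x) with hA
  have hAm : ∀ p ∈ A, x < p ∧ p ≤ 2 * x ∧ p.Prime := fun p hp => mem_pw.mp hp
  obtain ⟨E, hEd⟩ : ∃ E, E = A.filter fun p => (R p : ℝ) < (1 - η) * l := ⟨_, rfl⟩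
  rw [← hEd] at hE
  -- primes followed by a tiny gap
  have hb2 : ((A.filter fun p => (gp p : ℝ) ≤ w * l).card : ℝ) * l ≤ η / 2 * x := by
    have h1 := hx2 x a2 0 le_rfl (by rw [← hl]; linarith)
    rw [← hl, le_div_iff₀ hl0, hCw] at h1
    refine le_trans (mul_le_mul_of_nonneg_right ?_ hl0.le) h1
    have h2 : (A.filter fun p => (gp p : ℝ) ≤ w * l) ⊆ A.filter fun p =>
        (0 : ℝ) ≤ ((np p : ℝ) - p) ∧ ((np p : ℝ) - p) ≤ 0 + w * l := by
      intro p hp
      rw [mem_filter] at hp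
      rw [mem_filter]
      have h3 : ((gp p : ℤ) : ℝ) = (np p : ℝ) - p := by unfold gp; push_cast; ring
      have h4 : (0 : ℝ) < (gp p : ℝ) := by exact_mod_cast gp_pos p
      rw [← h3]
      exact ⟨hp.1, h4.le, by linarith [hp.2]⟩
    exact_mod_cast Finset.card_le_card (h2.trans (window_sub _ _ A np np_spec))
  obtain ⟨F, hF⟩ : ∃ F, F = E.filter fun p => w * l < (gp p : ℝ) := ⟨_, rfl⟩
  have hFcard : η / 2 * x ≤ (F.card : ℝ) * l := by
    have hsub : E ⊆ F ∪ A.filter fun p => (gp p : ℝ) ≤ w * l := by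
      intro p hp
      rw [mem_union, mem_filter]
      by_cases h : (gp p : ℝ) ≤ w * l
      · right
        rw [hEd, mem_filter] at hp
        exact ⟨hp.1, h⟩
      · left
        rw [hF, mem_filter]
        exact ⟨hp, not_le.mp h⟩
    have h1 := (Finset.card_le_card hsub).trans (Finset.card_union_le _ _)
    have h2 : (E.card : ℝ) ≤ F.card + (A.filter fun p => (gp p : ℝ) ≤ w * l).card := by
      exact_mod_cast h1
    have h3 := mul_le_mul_of_nonneg_right h2 hl0.le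
    linarith
  have hFm : ∀ p ∈ F, x < p ∧ p ≤ 2 * x ∧ p.Prime ∧ (R p : ℝ) < (1 - η) * l ∧
      w * l < (gp p : ℝ) := by
    intro p hp
    rw [hF, mem_filter, hEd, mem_filter] at hp
    obtain ⟨⟨h1, h2⟩, h3⟩ := hp
    obtain ⟨h4, h5, h6⟩ := hAm p h1
    exact ⟨h4, h5, h6, h2, h3⟩
  obtain ⟨H, hH⟩ : ∃ H : ℕ, H = ⌊η / 2 * l⌋₊ := ⟨_, rfl⟩
  have hH1 : (H : ℝ) ≤ η / 2 * l := by rw [hH]; exact Nat.floor_le (by positivity)
  have hH2 : η / 2 * l ≤ (H : ℝ) + 1 := by rw [hH]; exact (Nat.lt_floor_add_one _).le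
  set G := (Ioc x (3 * x)).filter fun n : ℕ => (n : ℝ) - s n ≤ (1 - η / 2) * Real.log n with hG
  have hRex : ∀ p, ((R p : ℤ) : ℝ) = (ex p : ℝ) - p + 1 := by
    intro p
    unfold R
    push_cast
    ring
  have hmem : ∀ p ∈ F, Icc (ex p) (ex p + H) ⊆ G := by
    intro p hp n hn
    obtain ⟨h1, h2, h3, h4, h5⟩ := hFm p hp
    rw [mem_Icc] at hn
    have h6 := le_ex p
    have h7 : (ex p : ℝ) ≤ n := by exact_mod_cast hn.1
    have h8 : (n : ℝ) ≤ ex p + H := by exact_mod_cast hn.2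
    have h9 : (p : ℝ) ≤ 2 * x := by exact_mod_cast h2
    have h10 : (x : ℝ) < p := by exact_mod_cast h1
    have h11 : (p : ℝ) ≤ ex p := by exact_mod_cast h6
    rw [hRex] at h4
    have hηl : 0 < η * l := by positivity
    rw [hG, mem_filter, mem_Ioc]
    refine ⟨⟨by omega, ?_⟩, ?_⟩
    · have : (n : ℝ) ≤ ((3 * x : ℕ) : ℝ) := by
        push_cast
        linarith
      exact_mod_cast this
    · have h12 : (p : ℝ) ≤ s (ex p) := by exact_mod_cast ex_spec p
      have h13 : (s (ex p) : ℝ) ≤ s n := by exact_mod_cast s_mono hn.1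
      have h14 : l ≤ Real.log n := by
        rw [hl]
        apply Real.log_le_log hxr
        linarith
      have h15 : (1 - η / 2) * l ≤ (1 - η / 2) * Real.log n :=
        mul_le_mul_of_nonneg_left h14 (by linarith)
      linarith
  -- multiplicity
  have hmult : ∀ n ∈ G, ((F.filter fun p => n ∈ Icc (ex p) (ex p + H)).card : ℝ) ≤ 1 / w + 1 := by
    intro n _
    have h1 := sep_count (F.filter fun p => n ∈ Icc (ex p) (ex p + H)) ((n : ℝ) - l) l (w * l)
      (by positivity) hl0.le ?_ ?_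
    · have h2 : l / (w * l) = 1 / w := by field_simp
      rw [h2] at h1
      exact h1
    · intro p hp
      rw [mem_filter, mem_Icc] at hp
      obtain ⟨hpF, hn1, hn2⟩ := hp
      obtain ⟨h1, h2, h3, h4, h5⟩ := hFm p hpF
      have h6 := le_ex p
      have h7 : (ex p : ℝ) ≤ n := by exact_mod_cast hn1
      have h8 : (n : ℝ) ≤ ex p + H := by exact_mod_cast hn2
      have h11 : (p : ℝ) ≤ ex p := by exact_mod_cast h6
      rw [hRex] at h4
      have hηl : 0 < η * l := by positivity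
      constructor
      · linarith
      · linarith
    · intro p hp q hq hpq
      rw [mem_filter] at hp hq
      obtain ⟨h1, h2, h3, h4, h5⟩ := hFm p hp.1
      obtain ⟨g1, g2, g3, g4, g5⟩ := hFm q hq.1
      have h6 : (np p : ℝ) ≤ q := by exact_mod_cast np_le g3 hpq
      have h7 : ((gp p : ℤ) : ℝ) = (np p : ℝ) - p := by unfold gp; push_cast; ring
      rw [h7] at h5
      linarith
  -- double counting
  have hdc : (F.card : ℝ) * (H + 1) ≤ (G.card : ℝ) * (1 / w + 1) := by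
    have h1 : ∑ p ∈ F, ((G.filter fun n => n ∈ Icc (ex p) (ex p + H)).card : ℝ) =
        ∑ n ∈ G, ((F.filter fun p => n ∈ Icc (ex p) (ex p + H)).card : ℝ) := by
      have := Finset.sum_card_bipartiteAbove_eq_sum_card_bipartiteBelow (s := F) (t := G)
        (fun p n => n ∈ Icc (ex p) (ex p + H))
      unfold Finset.bipartiteAbove Finset.bipartiteBelow at this
      exact_mod_cast this
    have h2 : ∀ p ∈ F, ((G.filter fun n => n ∈ Icc (ex p) (ex p + H)).card : ℝ) = H + 1 := by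
      intro p hp
      have h3 : (G.filter fun n => n ∈ Icc (ex p) (ex p + H)) = Icc (ex p) (ex p + H) := by
        ext n
        rw [mem_filter]
        exact ⟨fun h => h.2, fun h => ⟨hmem p hp h, h⟩⟩
      rw [h3, Nat.card_Icc]
      have : ex p + H + 1 - ex p = H + 1 := by omega
      rw [this]
      push_cast
      ring
    rw [Finset.sum_congr rfl h2, Finset.sum_const, nsmul_eq_mul] at h1
    rw [h1]
    have h4 := Finset.sum_le_sum hmult
    rw [Finset.sum_const, nsmul_eq_mul] at h4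
    exact h4
  have hM : 0 < 1 / w + 1 := by positivity
  rw [div_mul_eq_mul_div, div_le_iff₀ hM]
  refine le_trans ?_ hdc
  have h1 : (F.card : ℝ) * (η / 2 * l) ≤ (F.card : ℝ) * (H + 1) :=
    mul_le_mul_of_nonneg_left hH2 (Nat.cast_nonneg _)
  have h2 : η / 2 * (η / 2 * x) ≤ η / 2 * ((F.card : ℝ) * l) :=
    mul_le_mul_of_nonneg_left hFcard (by positivity)
  linarith

/-- a positive proportion of the integers up to x -/
theorem density_of (hcnt : SCnt) (htwo : STwo) (hsum : SSum) (hsv : SSv) :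
    ∃ c : ℝ, c < 1 ∧ ∃ α : ℝ, 0 < α ∧ ∃ x₀ : ℕ, ∀ x : ℕ, x₀ ≤ x →
      α * x ≤ (((Icc 1 x).filter fun n : ℕ => (n : ℝ) - s n ≤ c * Real.log n).card : ℝ) := by
  obtain ⟨c, hc, α, hα, x₀, hx₀⟩ := prop_of hcnt htwo hsum hsv
  refine ⟨c, hc, α / 6, by positivity, 3 * x₀ + 3, fun x hx => ?_⟩
  have h1 := hx₀ (x / 3) (by omega)
  have h2 : (x : ℝ) / 6 ≤ ((x / 3 : ℕ) : ℝ) := by
    have h3 : x ≤ 6 * (x / 3) := by omega
    have h4 : (x : ℝ) ≤ 6 * ((x / 3 : ℕ) : ℝ) := by exact_mod_cast h3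
    linarith
  have h3 : (((Ioc (x / 3) (3 * (x / 3))).filter
      fun n : ℕ => (n : ℝ) - s n ≤ c * Real.log n).card : ℝ) ≤
      (((Icc 1 x).filter fun n : ℕ => (n : ℝ) - s n ≤ c * Real.log n).card : ℝ) := by
    have : ((Ioc (x / 3) (3 * (x / 3))).filter
      fun n : ℕ => (n : ℝ) - s n ≤ c * Real.log n) ⊆
      ((Icc 1 x).filter fun n : ℕ => (n : ℝ) - s n ≤ c * Real.log n) := by
      apply Finset.filter_subset_filter
      intro n hn
      rw [mem_Ioc] at hn
      rw [mem_Icc]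
      omega
    exact_mod_cast Finset.card_le_card this
  have h4 : α / 6 * x ≤ α * ((x / 3 : ℕ) : ℝ) := by
    have := mul_le_mul_of_nonneg_left h2 hα.le
    linarith
  linarith

end Pool.Agent.H88.LS
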