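import Mathlib

/-!
# MP_a6ebc6_nt, project LS: liminf (n - s_n) / log n < 1. Definitions and statements.
-/

set_option autoImplicit false

namespace Pool.Agent.H88.LS

open Finset Classical

/-- the sequence s: s 0 = 0, s (n+1) = s n + π (n+1) - π (s n) -/
def s : ℕ → ℕ
  | 0 => 0
  | (n + 1) => s n + (Nat.primeCounting (n + 1) - Nat.primeCounting (s n))

/-- the primes in the window (a, b] -/
def pw (a b : ℕ) : Finset ℕ := (Ioc a b).filter Nat.Prime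

/-- exit time of p: the first n with p ≤ s n -/
noncomputable def ex (p : ℕ) : ℕ := sInf {n | p ≤ s n}

/-- residence time of p -/
noncomputable def R (p : ℕ) : ℤ := (ex p : ℤ) - p + 1

/-- the next prime -/
noncomputable def np (p : ℕ) : ℕ := sInf {q | q.Prime ∧ p < q}

/-- the gap after p -/
noncomputable def gp (p : ℕ) : ℤ := (np p : ℤ) - p

/-! ## basic facts -/

def SBase : Prop := (∀ n, s (n + 1) = s n + (pw (s n) (n + 1)).card) ∧ (∀ n, s n ≤ n) ∧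
  Monotone s ∧ (∀ m, ∃ n, m ≤ s n)

/-! ## K: the key lemma -/

def SK : Prop := ∀ p : ℕ, p.Prime →
  2 * R (np p) - R p - 1 ≤ gp (np p) ∨ gp p ≤ 2 * (R p - R (np p)) + 1 ∨
    2 * R (np p) - 1 ≤ gp p + gp (np p)

/-! ## N: counts of primes from the prime number theorem -/

def SCnt : Prop := ∀ ε : ℝ, 0 < ε → ∃ x₀ : ℕ, ∀ x : ℕ, x₀ ≤ x →
  (1 - ε) * x / Real.log x ≤ ((pw x (2 * x)).card : ℝ)

/-- at least two primes in a short interval -/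
def STwo : Prop := ∀ ε : ℝ, 0 < ε → ∃ x₀ : ℕ, ∀ x y : ℕ, x₀ ≤ x → x + ε * x ≤ (y : ℝ) →
  2 ≤ (pw x y).card

/-! ## S: the residence sum -/

def SSum : Prop := ∀ ε : ℝ, 0 < ε → ∃ x₀ : ℕ, ∀ x : ℕ, x₀ ≤ x →
  (∑ p ∈ pw x (2 * x), (R p : ℝ)) ≤ (1 + ε) * x

/-! ## V: the sieve -/

def SSv : Prop := ∃ C : ℝ, 1 ≤ C ∧ ∀ δ : ℝ, 0 < δ → δ ≤ 1 → ∃ x₀ : ℕ, ∀ x : ℕ, x₀ ≤ x →
  ∀ J : ℝ, 0 ≤ J → J ≤ 3 * Real.log x →
  (((pw x (2 * x)).filter fun p => ∃ j : ℕ, 1 ≤ j ∧ J ≤ j ∧ (j : ℝ) ≤ J + δ * Real.log x ∧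
    (p + j).Prime).card : ℝ) ≤ C * δ * x / Real.log x

/-! ## H: lower bound for R -/

def SH : Prop := ∀ c : ℝ, 0 < c → (∃ n₀ : ℕ, ∀ n : ℕ, n₀ ≤ n → c * Real.log n < (n : ℝ) - s n) →
  ∃ x₀ : ℕ, ∀ p : ℕ, x₀ ≤ p → p.Prime → c * Real.log p ≤ (R p : ℝ)

/-! ## M: conclusion -/

def SMain : Prop := ∃ c : ℝ, c < 1 ∧ ∀ N : ℕ, ∃ n : ℕ, N ≤ n ∧ (n : ℝ) - s n ≤ c * Real.log n

end Pool.Agent.H88.LS
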